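import Pool.Agent.Helper87.PG.Stmts

/-!
Module FINALG of `MP_39dd1a_ag` (hand-in `FiniteModels`): the existence theorem for a model variety
of `2 ^ k` points permuted transitively by linear automorphisms.
-/

set_option autoImplicit false

namespace Pool.Agent.Helper87.PG

open MvPolynomial Pool.Agent.Helper48.VMRT Pool.Agent.Helper87.VM Pool.Agent.Helper87.TC

/-- The data of the construction. -/
theorem finalg_data (hCEX : VM.ST_CEX) (hFDEX : VM.ST_FDEX) (hYPM : VM.ST_YPM)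
    (hYACT : VM.ST_YACT) (hXEX : VM.ST_XEX) (w : ℕ) (ι : Type) [Finite ι] [hι : Nonempty ι]
    (Zi : ι → Set (Fin w → ℂ))
    (G : Type) [Group G] [Fintype G] (ρ : G →* ((Fin w → ℂ) →ₗ[ℂ] (Fin w → ℂ)))
    (hcl : ∀ i, ZClosed (Zi i)) (hcone : ∀ i, ∀ a : ℂ, ∀ z ∈ Zi i, a • z ∈ Zi i)
    (hirr : ∀ i, (vanishingIdeal ℂ (Zi i)).IsPrime) (hne : ∀ i, ∃ z ∈ Zi i, z ≠ 0)
    (hsm : SmoothCone (⋃ i, Zi i)) (hact : ∀ g, ∀ z ∈ ⋃ i, Zi i, ρ g z ∈ ⋃ i, Zi i)
    (htr : ∀ i j, ∃ g, (fun z => ρ g z) '' Zi i = Zi j) (m : ℕ) (hm : 1 ≤ m)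
    (hcard : Nat.card G = 2 ^ m) (heff : ∀ h : G, h ≠ 1 → ∃ x, ρ h x ≠ x)
    (hln : ∀ i, ∃ z, z ≠ 0 ∧ Zi i = ln z)
    (hfix : ∀ h : G, h ≠ 1 →
      Module.finrank ℂ (LinearMap.ker (ρ h - LinearMap.id)) + 2 ≤ w)
    (hGENP : ST_GENP) (hMAIN2 : ST_MAIN2) :
    ∃ (N d : ℕ) (X : Set (Fin (N + 1) → ℂ)) (H : Set (Coef N d)),
      IsProjManifold w N X ∧ IsFamily X H ∧ IsMinimalComponent X H ∧
        Isotrivial X H (⋃ i, Zi i) := by
  obtain ⟨κB, iB, dB, π, B, hB, hBf⟩ := hCEX G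
  have hZcl : ZClosed (⋃ i, Zi i) := zclosed_iUnion hcl
  have hZcone : ∀ a : ℂ, ∀ z ∈ ⋃ i, Zi i, a • z ∈ ⋃ i, Zi i := by
    intro a z hz
    obtain ⟨i, hi⟩ := Set.mem_iUnion.1 hz
    exact Set.mem_iUnion.2 ⟨i, hcone i a z hi⟩
  have hZne : (⋃ i, Zi i).Nonempty := by
    obtain ⟨i⟩ := hι
    obtain ⟨z, hz, _⟩ := hne i
    exact ⟨z, Set.mem_iUnion.2 ⟨i, hz⟩⟩
  obtain ⟨ν, iν, dν, a, F, ρν, hF⟩ := hFDEX G w (⋃ i, Zi i) ρ hZcl hZcone hZne hsm hact
  have hY := hYPM G ν w _ ρ a F ρν hF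
  have hYa := hYACT G ν w _ ρ a F ρν hF
  have hG : 1 ≤ Fintype.card G := Fintype.card_pos
  have hk : 1 ≤ 2 * Fintype.card G := by omega
  obtain ⟨N, E, hE⟩ := hXEX G κB (Option (Fin w) × ν) π B (tens (oext ρ) ρν) (Yc F) w
    (2 * Fintype.card G) (2 * Fintype.card G * a + 2) hB hBf hY hYa hk (by omega) (by omega)
  let D : VD :=
    { G := G, w := w, ι := ι, Zi := Zi, ρ := ρ, κB := κB, π := π, B := B, ν := ν, a := a,
      F := F, ρν := ρν, N := N, k := 2 * Fintype.card G, t := 2 * Fintype.card G * a + 2,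
      E := E }
  have hD : D.Good :=
    { ine := hι
      Zcl := hcl
      ZZcl := hZcl
      Zcone := hcone
      Zirr := hirr
      Zne := hne
      Zact := hact
      trans := htr
      Bpm := hB
      Bfree := hBf
      fd := hF
      Ypm := hY
      Yact := hYa
      kpos := hk
      kG := by
        change 2 * Fintype.card G ≤ 2 * Fintype.card G + 1
        omega
      tbig := by
        change 2 * Fintype.card G * a + 1 < 2 * Fintype.card G * a + 2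
        omega
      xd := hE }
  have hTD : TD D m :=
    { good := hD
      fin := inferInstanceAs (Finite ι)
      pos := hm
      card := hcard
      eff := heff }
  exact hMAIN2 D m hTD (hGENP D m hTD hln hfix)

theorem st_FINALG (hLCO : ST_LCO) (hLSM : ST_LSM) (hSYL2 : ST_SYL2) (hFIXD : ST_FIXD)
    (hGENP : ST_GENP) (hMAIN2 : ST_MAIN2) (hCEX : VM.ST_CEX) (hFDEX : VM.ST_FDEX)
    (hYPM : VM.ST_YPM) (hYACT : VM.ST_YACT) (hXEX : VM.ST_XEX) : ST_FINALG := by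
  classical
  intro n k ι _ z hz hk hcard ha
  obtain ⟨G, m, hm, hGcard, hdet, hGact, hGtr⟩ := hSYL2 n k ι z hz hk hcard ha
  have hZ := hLCO n ι z hz
  have hsm := hLSM n ι z hz
  have hι : Nonempty ι := by
    have h0 : Nat.card ι ≠ 0 := by
      rw [hcard]; exact pow_ne_zero _ two_ne_zero
    exact (Nat.card_ne_zero.1 h0).1
  have hfin : Finite G := by
    have h0 : Nat.card G ≠ 0 := by
      rw [hGcard]; exact pow_ne_zero _ two_ne_zero
    exact (Nat.card_ne_zero.1 h0).2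
  have hFt : Fintype G := Fintype.ofFinite _
  let ρ : G →* ((Fin n → ℂ) →ₗ[ℂ] (Fin n → ℂ)) :=
    { toFun := fun g => (g : (Fin n → ℂ) ≃ₗ[ℂ] (Fin n → ℂ)).toLinearMap
      map_one' := rfl
      map_mul' := fun _ _ => rfl }
  have hne1 : ∀ h : G, (∀ x, ρ h x = x) → h = 1 := by
    intro h hx
    refine Subtype.ext (LinearEquiv.ext fun x => ?_)
    exact hx x
  have hfix : ∀ h : G, h ≠ 1 →
      Module.finrank ℂ (LinearMap.ker (ρ h - LinearMap.id)) + 2 ≤ n := by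
    intro h hh
    refine hFIXD n (ρ h) (Nat.card G) Nat.card_pos ?_ (hdet h h.2) ?_
    · rw [← map_pow, pow_card_eq_one', map_one]
    · intro h1
      exact hh (hne1 h fun x => by rw [h1]; rfl)
  refine finalg_data hCEX hFDEX hYPM hYACT hXEX n ι (fun i => ln (z i)) G ρ hZ.closed hZ.cone
    hZ.irred hZ.exists_ne hsm (fun h x hx => hGact h h.2 x hx) ?_ m hm hGcard ?_
    (fun i => ⟨z i, hz.ne i, rfl⟩) hfix hGENP hMAIN2
  · intro i j
    obtain ⟨g, hg, hgi⟩ := hGtr i j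
    exact ⟨⟨g, hg⟩, hgi⟩
  · intro h hh
    by_contra hcon
    push Not at hcon
    exact hh (hne1 h hcon)

end Pool.Agent.Helper87.PG
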