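import Pool.Agent.Helper87.PG.Stmts

/-!
Module FIXD of `MP_39dd1a_ag` (hand-in `FiniteModels`): the fixed vectors of an automorphism of
finite order and determinant `1`.
-/

set_option autoImplicit false

namespace Pool.Agent.Helper87.PG

theorem st_FIXD : ST_FIXD := by
  intro n g r hr hgr hdet hg1
  by_contra hcon
  push Not at hcon
  set L := g - LinearMap.id with hL
  have hLx : ∀ x, g x = x + L x := by
    intro x
    rw [hL, LinearMap.sub_apply, LinearMap.id_apply]
    abel
  have h1 : Module.finrank ℂ (LinearMap.range L) + Module.finrank ℂ (LinearMap.ker L) = n := by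
    have := LinearMap.finrank_range_add_finrank_ker L
    rwa [Module.finrank_fin_fun] at this
  have h2 : Module.finrank ℂ (LinearMap.range L) ≤ 1 := by omega
  rw [Submodule.finrank_le_one_iff_isPrincipal] at h2
  obtain ⟨v, hv⟩ := h2.principal
  have hLv : ∀ x, ∃ c : ℂ, L x = c • v := by
    intro x
    have : L x ∈ LinearMap.range L := ⟨x, rfl⟩
    rw [hv] at this
    obtain ⟨c, hc⟩ := Submodule.mem_span_singleton.1 this
    exact ⟨c, hc.symm⟩
  have hne : ∃ x, L x ≠ 0 := by
    by_contra h
    push Not at h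
    apply hg1
    refine LinearMap.ext fun x => ?_
    rw [hLx, h, add_zero]
    rfl
  obtain ⟨x₀, hx₀⟩ := hne
  have hv0 : v ≠ 0 := by
    rintro rfl
    obtain ⟨c, hc⟩ := hLv x₀
    exact hx₀ (by rw [hc, smul_zero])
  obtain ⟨i, hi⟩ := Function.ne_iff.1 hv0
  rw [Pi.zero_apply] at hi
  let f : Module.Dual ℂ (Fin n → ℂ) := (v i)⁻¹ • (LinearMap.proj i ∘ₗ L)
  have hf : ∀ x, L x = f x • v := by
    intro x
    obtain ⟨c, hc⟩ := hLv x
    have : f x = c := by
      change (v i)⁻¹ * (L x i) = c
      rw [hc, Pi.smul_apply, smul_eq_mul]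
      field_simp
    rw [this, hc]
  have hgt : g = LinearMap.transvection f v := by
    refine LinearMap.ext fun x => ?_
    rw [hLx, LinearMap.transvection.apply, hf]
  have hfv : f v = 0 := by
    have h3 := LinearMap.transvection.det f v
    rw [← hgt, hdet] at h3
    linear_combination -h3
  have hpow : ∀ (k : ℕ) (x : Fin n → ℂ), (g ^ k) x = x + ((k : ℂ) * f x) • v := by
    intro k
    induction k with
    | zero => intro x; simp
    | succ k ih =>
      intro x
      rw [pow_succ']
      change g ((g ^ k) x) = _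
      rw [ih, hLx, hf, map_add, map_smul, hfv, smul_zero, add_zero, add_assoc, ← add_smul]
      congr 2
      push_cast
      ring
  obtain ⟨x, hx⟩ : ∃ x, L x ≠ 0 := ⟨x₀, hx₀⟩
  have h4 := hpow r x
  rw [hgr] at h4
  have h5 : ((r : ℂ) * f x) • v = 0 := by
    have h6 : (1 : (Fin n → ℂ) →ₗ[ℂ] (Fin n → ℂ)) x = x := rfl
    rw [h6] at h4
    exact left_eq_add.1 h4
  have h7 : (r : ℂ) * f x = 0 := (smul_eq_zero.1 h5).resolve_right hv0
  have h8 : f x = 0 := (mul_eq_zero.1 h7).resolve_left (by exact_mod_cast hr.ne')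
  exact hx (by rw [hf, h8, zero_smul])

end Pool.Agent.Helper87.PG
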