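import Pool.Agent.Helper87.PG.Stmts
import Pool.Agent.Helper87.TC.LINE

/-!
Module LINE of `MP_39dd1a_ag` (hand-in `FiniteModels`): lines in general position avoid the fixed
points of the involutions.
-/

set_option autoImplicit false

namespace Pool.Agent.Helper87.PG

open MvPolynomial Pool.Agent.Helper48.VMRT Pool.Agent.Helper87.VM Pool.Agent.Helper87.TC

/-- The derivative of some equation in a direction which is not tangent to `x₀ = 0` does not
vanish. -/
theorem line_normal_dir {D : VD} (hD : D.Good) {z : Fin D.w → ℂ} (hz0 : z ≠ 0)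
    (v : Option (Fin D.w) → ℂ) (hv : v none ≠ 0) :
    ∃ j, dpol (D.F j) (ov 0 z) v ≠ 0 := by
  by_contra hcon
  push Not at hcon
  obtain ⟨o, ho⟩ := Function.ne_iff.1 hz0
  have hm : HomE (D.a - 1) ((X (some o) : MvPolynomial (Option (Fin D.w)) ℂ) ^ (D.a - 1)) := by
    have := (homE_X (some o : Option (Fin D.w))).pow (D.a - 1)
    rwa [one_mul] at this
  have hsp := hD.fd.span _ hm
  rw [Submodule.mem_span_range_iff_exists_fun] at hsp
  obtain ⟨l, hl⟩ := hsp
  have h1 := congrArg (fun p => dpol p (ov 0 z) v) hl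
  simp only [dpol_sum, dpol_smul, hcon, mul_zero, Finset.sum_const_zero, dpol_mul, dpol_X,
    ov_none, eval_X, zero_mul, zero_add, map_pow, ov_some] at h1
  exact mul_ne_zero hv (pow_ne_zero _ ho) (by first | exact h1.symm | (rw [mul_comm]; exact h1.symm))

theorem st_LINE (hHTR0 : TC.ST_HTR0) : ST_LINE := by
  intro D m hTD u hu z hz hz0 y hy hgr s t hst hFX
  have hD := hTD.good
  obtain ⟨τ, hτ1, hττ, hFX⟩ := hFX
  have hH := (hHTR0 D hD τ).1
  have hact : ∀ (c : ℂ) (v : Fin D.w → ℂ), oext D.ρ τ (ov c v) = ov c (D.ρ τ v) :=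
    fun c v => oext_ov D.ρ τ c v
  have hρρ : ∀ v, D.ρ τ (D.ρ τ v) = v := by
    intro v
    have h1 : D.ρ (τ * τ) v = D.ρ τ (D.ρ τ v) := by rw [map_mul]; rfl
    rw [← h1, hττ, map_one]
    rfl
  have hFX' : ∃ e : ℂ, (e = 1 ∨ e = -1) ∧
      D.ρY τ (hevv D.a y s t) = e • hevv D.a y s t := by
    rcases hFX with h1 | h1
    · exact ⟨1, Or.inl rfl, by rw [h1, one_smul]⟩
    · exact ⟨-1, Or.inr rfl, by rw [h1, neg_one_smul]⟩
  obtain ⟨e, he, hfe⟩ := hFX'
  have he0 : e ≠ 0 := by
    rcases he with rfl | rfl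
    · exact one_ne_zero
    · exact neg_ne_zero.2 one_ne_zero
  have hyne := hy.ne s t hst
  by_cases hs : s = 0
  · subst hs
    have ht : t ≠ 0 := by
      rintro rfl
      exact hst rfl
    set z' : Fin D.w → ℂ := t • z with hz'
    have hz'Z : z' ∈ D.Z := line_smul_z hD t hz
    have hz'0 : z' ≠ 0 := smul_ne_zero ht hz0
    -- the point
    have h1 : hevv D.a y 0 t = seg (ov 0 z') (dev D.F (ov 0 z') (ov 1 u)) := by
      refine line_lim D (f := fun s => hevv D.a y s t) (line_diff D.a y t) _ _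
        (line_ev_zero hD hz'Z) ?_
      intro s
      rw [hgr, hz', add_comm]
      congr 2
      rw [← ov_smul, mul_zero]
    -- its image
    have h2 : D.ρY τ (hevv D.a y 0 t) =
        seg (ov 0 (D.ρ τ z')) (dev D.F (ov 0 (D.ρ τ z')) (ov 1 (D.ρ τ u))) := by
      have hd : DifferentiableAt ℂ (fun s => D.ρY τ (hevv D.a y s t)) 0 :=
        (LinearMap.toContinuousLinearMap (D.ρY τ)).differentiableAt.comp (0 : ℂ)
          (line_diff D.a y t)
      refine line_lim D (f := fun s => D.ρY τ (hevv D.a y s t)) hd _ _ ?_ ?_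
      · exact line_ev_zero hD (hD.Zact τ z' hz'Z)
      · intro s
        rw [← map_smul, hgr, ← hH, map_add, map_smul, map_smul, hact, hact, add_comm]
        congr 2
        rw [← ov_smul, mul_zero, hz', map_smul]
    have h3 : seg (ov 0 z') (e • dev D.F (ov 0 z') (ov 1 u)) =
        seg (ov 0 (D.ρ τ z')) (dev D.F (ov 0 (D.ρ τ z')) (ov 1 (D.ρ τ u))) := by
      rw [seg_smul_right, ← h1, ← hfe, h2]
    obtain ⟨c, hc0, hc, hc'⟩ := seg_eq_seg h3 (by
      rw [seg_smul_right, ← h1]
      exact smul_ne_zero he0 hyne)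
    have hcz : D.ρ τ z' = c • z' := by
      funext i
      exact congrFun hc (some i)
    have hcc : c * c = 1 := by
      have h4 : (c * c) • z' = (1 : ℂ) • z' := by
        rw [one_smul, mul_smul, ← hcz, ← map_smul, ← hcz, hρρ]
      have h5 : (c * c - 1) • z' = 0 := by rw [sub_smul, h4, sub_self]
      exact sub_eq_zero.1 ((smul_eq_zero.1 h5).resolve_right hz'0)
    have hc1 : c = 1 ∨ c = -1 := mul_self_eq_one_iff.1 hcc
    have hpm : D.ρ τ z' = z' ∨ D.ρ τ z' = -z' := by
      rcases hc1 with h4 | h4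
      · left; rw [hcz, h4, one_smul]
      · right; rw [hcz, h4, neg_one_smul]
    obtain ⟨a, ha⟩ : ∃ a, D.a = a + 1 := ⟨D.a - 1, by have := hD.fd.two_le; omega⟩
    have h4 : dev D.F (ov 0 (D.ρ τ z')) (ov 1 (D.ρ τ u)) =
        (c ^ a) • dev D.F (ov 0 z') (ov 1 (D.ρ τ u)) := by
      funext j
      have hj := hD.fd.hom j
      rw [ha] at hj
      rw [dev_apply, Pi.smul_apply, smul_eq_mul, dev_apply, hc, dpol_smul_point hj]
    have hinv : c⁻¹ = c := by
      rcases hc1 with h5 | h5 <;> rw [h5] <;> norm_num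
    obtain ⟨e', he', h6⟩ : ∃ e' : ℂ, (e' = 1 ∨ e' = -1) ∧
        dev D.F (ov 0 z') (ov 1 (D.ρ τ u)) = e' • dev D.F (ov 0 z') (ov 1 u) := by
      refine ⟨c ^ a * (c * e), ?_, ?_⟩
      · have hca : c ^ a = 1 ∨ c ^ a = -1 := by
          rcases hc1 with h5 | h5
          · left; rw [h5, one_pow]
          · rw [h5]; exact neg_one_pow_eq_or ℂ a
        rcases hca with h7 | h7 <;> rcases hc1 with h8 | h8 <;> rcases he with h9 | h9 <;>
          rw [h7, h8, h9] <;> norm_num
      · have h7 : (c ^ a * c ^ a : ℂ) = 1 := by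
          rw [← mul_pow, hcc, one_pow]
        rw [h4, hinv, smul_smul] at hc'
        have h8 := congrArg (fun w => (c ^ a) • w) hc'
        simp only [smul_smul] at h8
        rw [h7, one_smul] at h8
        exact h8
    have hsplit : ∀ (b : ℂ) (v : Fin D.w → ℂ) (j : D.ν), dpol (D.F j) (ov 0 z') (ov b v) =
        b * dpol (D.F j) (ov 0 z') (ov 1 0) + dpol (D.F j) (ov 0 z') (ov 0 v) := by
      intro b v j
      have : ov b v = b • ov 1 (0 : Fin D.w → ℂ) + ov 0 v := by
        rw [← ov_smul, ← ov_add, mul_one, smul_zero, add_zero, zero_add]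
      rw [this, dpol_add_right, dpol_smul_right]
    rcases he' with h7 | h7
    · apply hu.inf τ hτ1 hττ z' hz'Z hz'0 hpm
      rw [line_mem_TT]
      intro j
      have h8 := congrFun h6 j
      rw [h7, one_smul, dev_apply, dev_apply, hsplit, hsplit 1 u] at h8
      have h9 : ov (0 : ℂ) (D.ρ τ u - u) = ov 0 (D.ρ τ u) + (-1 : ℂ) • ov 0 u := by
        rw [← ov_smul, ← ov_add, mul_zero, add_zero, neg_one_smul, sub_eq_add_neg]
      rw [h9, dpol_add_right, dpol_smul_right]
      linear_combination h8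
    · obtain ⟨j, hj⟩ := line_normal_dir hD hz'0 (ov 2 (D.ρ τ u + u)) (by
        rw [ov_none]; exact two_ne_zero)
      apply hj
      have h8 := congrFun h6 j
      rw [h7, Pi.smul_apply, smul_eq_mul, dev_apply, dev_apply] at h8
      have h9 : ov (2 : ℂ) (D.ρ τ u + u) = ov 1 (D.ρ τ u) + ov 1 u := by
        rw [← ov_add]; norm_num
      rw [h9, dpol_add_right]
      linear_combination h8
  · -- the affine part
    have hx : s • ov 1 u + t • ov 0 z = ov s (s • u + t • z) := by
      rw [← ov_smul, ← ov_smul, ← ov_add, mul_one, mul_zero, add_zero]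
    have h1 : D.gr (ov s (D.ρ τ (s • u + t • z))) = e • D.gr (ov s (s • u + t • z)) := by
      rw [← hact, hH, ← hx, ← hgr, map_smul, hfe, smul_comm]
    have h2 : D.gr (ov s (s • u + t • z)) ≠ 0 := by
      rw [← hx, ← hgr]
      exact smul_ne_zero hs hyne
    have h3 : seg (ov s (s • u + t • z)) (e • ev D.F (ov s (s • u + t • z))) =
        seg (ov s (D.ρ τ (s • u + t • z))) (ev D.F (ov s (D.ρ τ (s • u + t • z)))) := by
      rw [seg_smul_right]
      exact h1.symm
    obtain ⟨c, hc0, hc, -⟩ := seg_eq_seg h3 (by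
      rw [seg_smul_right]
      exact smul_ne_zero he0 h2)
    have hc1 : c = 1 := by
      have h4 := congrFun hc none
      rw [Pi.smul_apply, smul_eq_mul, ov_none, ov_none] at h4
      exact mul_right_cancel₀ hs (by rw [one_mul]; exact h4.symm)
    have h5 : D.ρ τ (s • u + t • z) = s • u + t • z := by
      funext i
      have h4 := congrFun hc (some i)
      rw [hc1, one_smul] at h4
      exact h4
    have h6 : s • (u + (t / s) • z) = s • u + t • z := by
      rw [smul_add, smul_smul, mul_div_cancel₀ _ hs]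
    rw [← h6, map_smul] at h5
    have h7 := smul_right_injective (Fin D.w → ℂ) hs h5
    exact hu.aff τ hτ1 hττ _ (line_smul_z hD (t / s) hz) h7

end Pool.Agent.Helper87.PG
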